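import Pool.Agent.P8H66.SQ.Up

/-!
# Complete graphs are asymptotically extremal for `f_μ` (helper66)
-/

set_option autoImplicit false

open Finset

namespace Pool.Agent.P8H66.SQ

open Helper650_SD

theorem card_top (n : ℕ) : Nat.card (⊤ : SimpleGraph (Fin n)).edgeSet = n.choose 2 := by
  classical
  rw [Nat.card_eq_fintype_card, ← SimpleGraph.edgeFinset_card,
    SimpleGraph.card_edgeFinset_top_eq_card_choose_two, Fintype.card_fin]

theorem top_ge (k : ℕ) (hk : 2 ≤ k) :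
    (k : ℝ) * ((k : ℝ) - 2) ^ 2 / 4 ≤ (fG (⊤ : SimpleGraph (Fin (k + 1))) : ℝ) := by
  have hr : (Set.range (fun S : Finset (Fin (k + 1)) => muOn (⊤ : SimpleGraph (Fin (k + 1))) S +
      muOn (⊤ : SimpleGraph (Fin (k + 1))) Sᶜ)).Nonempty := ⟨_, ⟨∅, rfl⟩⟩
  obtain ⟨S, hS⟩ := Nat.sInf_mem hr
  have h3 : fG (⊤ : SimpleGraph (Fin (k + 1))) = muOn (⊤ : SimpleGraph (Fin (k + 1))) S +
      muOn (⊤ : SimpleGraph (Fin (k + 1))) Sᶜ := hS.symm
  rw [h3]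
  refine lower_cost k hk _ (fun i j hij => ?_) S
  rw [SimpleGraph.top_adj]
  exact fun h => hij (Fin.castSucc_injective k h)

theorem complete (n : ℕ) :
    |(fG (⊤ : SimpleGraph (Fin n)) : ℝ) - (√(2 * (n.choose 2 : ℕ))) ^ 3 / 4| ≤ (9 / 2 : ℝ) * (n.choose 2 : ℕ) := by
  have hup := upper4 (⊤ : SimpleGraph (Fin n)) (n.choose 2) (card_top n)
  have hm0 : (0 : ℝ) ≤ (n.choose 2 : ℕ) := by positivity
  rw [abs_le]
  refine ⟨?_, by linarith⟩
  have hs2 : (√(2 * (n.choose 2 : ℕ) : ℝ)) ^ 2 = 2 * (n.choose 2 : ℕ) := Real.sq_sqrt (by positivity)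
  have hs0 : 0 ≤ √(2 * (n.choose 2 : ℕ) : ℝ) := Real.sqrt_nonneg _
  have hch : (2 : ℝ) * (n.choose 2 : ℕ) = n * (n - 1) := by
    rw [Nat.cast_choose_two]
    ring
  have hsn : √(2 * (n.choose 2 : ℕ) : ℝ) ≤ n := by
    rw [hch]
    refine Real.sqrt_le_iff.2 ⟨by positivity, ?_⟩
    have : (0 : ℝ) ≤ n := by positivity
    nlinarith
  set s : ℝ := √(2 * (n.choose 2 : ℕ) : ℝ) with hs
  have hs3 : s ^ 3 ≤ ((n : ℝ) * ((n : ℝ) - 1)) * (n : ℝ) := by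
    have e : s ^ 3 = s ^ 2 * s := by ring
    rw [e, hs2, hch]
    refine mul_le_mul_of_nonneg_left hsn ?_
    rw [← hch]
    positivity
  have hC : (9 / 2 : ℝ) * (n.choose 2 : ℕ) = 9 / 4 * (n * (n - 1)) := by
    rw [← hch]; ring
  rcases le_or_gt n 2 with h | h
  · have hf : (0 : ℝ) ≤ (fG (⊤ : SimpleGraph (Fin n)) : ℝ) := by positivity
    rw [hC]
    have hn2 : (n : ℝ) ≤ 2 := by exact_mod_cast h
    have hn1 : (0 : ℝ) ≤ (n : ℝ) * ((n : ℝ) - 1) := by rw [← hch]; positivity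
    have hn3 : ((n : ℝ) * ((n : ℝ) - 1)) * (n : ℝ) ≤ ((n : ℝ) * ((n : ℝ) - 1)) * 2 :=
      mul_le_mul_of_nonneg_left hn2 hn1
    linarith
  · obtain ⟨k, rfl⟩ : ∃ k, n = k + 1 := ⟨n - 1, by omega⟩
    have h1 := top_ge k (by omega)
    rw [hC]
    push_cast at hs3 ⊢
    have hk : (2 : ℝ) ≤ k := by exact_mod_cast (show 2 ≤ k by omega)
    nlinarith

end Pool.Agent.P8H66.SQ
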