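import Mathlib

/-!
# Bipartitions minimising the sum of squared degrees: the sharp upper bound (helper66)

`A` is the adjacency matrix of a graph with `m` edges, `s² = 2 m`. For `ε ∈ [-1, 1] ^ V` let
`Φ(ε) = ∑ (d_v² + E_v² + 2 ε_v d_v E_v)`, `E_v = ∑_{u ~ v} ε_u`; for `ε = ± 1` this is four times the sum of the
squares of the inner degrees of the bipartition. `Φ(ε) + ∑ d_u (1 - ε_u²)` is affine in each variable, so that
there is a bipartition of cost at most `(Φ(ε) + 2 m) / 4`. For `ε_v = h(d_v / s)`, `h(x) = x - 1` for `x ≤ 1`,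
`1 - 1/x` for `x ≥ 1`, one has `Φ(ε) ≤ s³`.
-/

set_option autoImplicit false

open Finset

namespace Pool.Agent.P8H66.SQ

/-! ### scalars -/

/-- the bias of a vertex of degree `x s` -/
noncomputable def hh (x : ℝ) : ℝ := if x ≤ 1 then x - 1 else 1 - 1 / x

/-- the budget of an edge for its end of degree `x s`, if the other end has degree `z s`, `y = min z 1` -/
noncomputable def psi (x y : ℝ) : ℝ := if x < 1 then x * ((2 - x - y) ^ 2 + x * (2 - x)) else 2 - y

theorem hh_le (x : ℝ) (hx : 0 ≤ x) : 1 + hh x ≤ x := by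
  unfold hh
  split_ifs with h
  · linarith
  · push Not at h
    have h1 : 1 / x * x = 1 := by field_simp
    have h2 : 0 < 1 / x := by positivity
    nlinarith [sq_nonneg (x - 1)]

theorem min_le_hh (x : ℝ) (hx : 0 ≤ x) : min x 1 ≤ 1 + hh x := by
  unfold hh
  split_ifs with h
  · rw [min_eq_left h]; linarith
  · push Not at h
    rw [min_eq_right h.le]
    have : 1 / x ≤ 1 := by rw [div_le_one (by linarith)]; exact h.le
    linarith

theorem hh_le_one (x : ℝ) (hx : 0 ≤ x) : 1 + hh x ≤ 2 := by
  unfold hh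
  split_ifs with h
  · linarith
  · push Not at h
    have h2 : 0 < 1 / x := by positivity
    linarith

theorem hh_abs (x : ℝ) (hx : 0 ≤ x) : |hh x| ≤ 1 := by
  rw [abs_le]
  have h1 := hh_le_one x hx
  have h2 := min_le_hh x hx
  have h3 : 0 ≤ min x 1 := le_min hx zero_le_one
  constructor <;> linarith

theorem high (x G G' : ℝ) (hx : 1 ≤ x) (h0 : 0 ≤ G) (h1 : G ≤ 1) (h2 : G' ≤ G) :
    x ^ 2 + (G - x) ^ 2 + 2 * hh x * x * (G - x) ≤ 2 * x - G' := by
  have e : hh x * x = x - 1 := by
    unfold hh
    split_ifs with h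
    · have : x = 1 := le_antisymm h hx
      subst this; norm_num
    · field_simp
  have e2 : x ^ 2 + (G - x) ^ 2 + 2 * hh x * x * (G - x) = G ^ 2 - 2 * G + 2 * x := by
    have : 2 * hh x * x * (G - x) = 2 * (hh x * x) * (G - x) := by ring
    rw [this, e]; ring
  rw [e2]
  nlinarith

theorem low (x G G' T : ℝ) (hx0 : 0 ≤ x) (hx : x < 1) (h1 : G ≤ 1) (h2 : G' ≤ G) (h3 : G ≤ 2 * x)
    (hT1 : (x * (2 - x) - G') ^ 2 ≤ x * T) (hT2 : x * (1 - x) ^ 2 ≤ T) :
    x ^ 2 + (G - x) ^ 2 + 2 * hh x * x * (G - x) ≤ x * T + x ^ 2 * (x * (2 - x)) := by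
  have e : hh x = x - 1 := by unfold hh; rw [if_pos hx.le]
  have e2 : x ^ 2 + (G - x) ^ 2 + 2 * hh x * x * (G - x) =
      (G - x * (2 - x)) ^ 2 + x ^ 2 * (x * (2 - x)) := by rw [e]; ring
  rw [e2]
  have key : (G - x * (2 - x)) ^ 2 ≤ x * T := by
    rcases le_total G (x * (2 - x)) with h | h
    · refine le_trans ?_ hT1
      nlinarith
    · have h4 : G ≤ x * (3 - 2 * x) := by
        rcases le_total x (1 / 2) with h5 | h5
        · nlinarith
        · nlinarith
      have h5 : (G - x * (2 - x)) ^ 2 ≤ (x * (1 - x)) ^ 2 := by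
        have h6 : 0 ≤ G - x * (2 - x) := by linarith
        have h7 : G - x * (2 - x) ≤ x * (1 - x) := by nlinarith
        exact pow_le_pow_left₀ h6 h7 2
      have h8 : x * (x * (1 - x) ^ 2) ≤ x * T := mul_le_mul_of_nonneg_left hT2 hx0
      nlinarith
  linarith

theorem pair (x z : ℝ) (hx : 0 ≤ x) (hz : 0 ≤ z) : psi x (min z 1) + psi z (min x 1) ≤ 2 := by
  unfold psi
  by_cases h1 : x < 1 <;> by_cases h2 : z < 1
  · rw [if_pos h1, if_pos h2, min_eq_left h1.le, min_eq_left h2.le]
    have e : x * ((2 - x - z) ^ 2 + x * (2 - x)) + z * ((2 - z - x) ^ 2 + z * (2 - z)) =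
        2 - (2 * (1 - (x + z)) ^ 2 - x * z * (3 * (x + z) - 4)) := by ring
    rw [e]
    have key : 0 ≤ 2 * (1 - (x + z)) ^ 2 - x * z * (3 * (x + z) - 4) := by
      rcases le_total (3 * (x + z)) 4 with h | h
      · have : x * z * (3 * (x + z) - 4) ≤ 0 := mul_nonpos_of_nonneg_of_nonpos (mul_nonneg hx hz) (by linarith)
        nlinarith [sq_nonneg (1 - (x + z))]
      · have h3 : x * z ≤ (x + z) ^ 2 / 4 := by nlinarith [sq_nonneg (x - z)]
        have h4 : x * z * (3 * (x + z) - 4) ≤ (x + z) ^ 2 / 4 * (3 * (x + z) - 4) :=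
          mul_le_mul_of_nonneg_right h3 (by linarith)
        have h5 : 8 * (1 - (x + z)) ^ 2 - (x + z) ^ 2 * (3 * (x + z) - 4) =
            (2 - (x + z)) * (3 * ((x + z) - 1) ^ 2 + 1) := by ring
        have h6 : 0 ≤ (2 - (x + z)) * (3 * ((x + z) - 1) ^ 2 + 1) := mul_nonneg (by linarith) (by positivity)
        nlinarith
    linarith
  · push Not at h2
    rw [if_pos h1, if_neg (not_lt.2 h2), min_eq_right h2, min_eq_left h1.le]
    nlinarith
  · push Not at h1
    rw [if_neg (not_lt.2 h1), if_pos h2, min_eq_right h1, min_eq_left h2.le]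
    nlinarith
  · push Not at h1 h2
    rw [if_neg (not_lt.2 h1), if_neg (not_lt.2 h2), min_eq_right h1, min_eq_right h2]
    norm_num

/-! ### the adjacency matrix -/

variable {V : Type} [Fintype V] [DecidableEq V] (A : V → V → ℝ)

/-- the degree -/
def dg (v : V) : ℝ := ∑ u, A v u

/-- `E_v` -/
def EE (ε : V → ℝ) (v : V) : ℝ := ∑ u, A v u * ε u

/-- `Φ` -/
def Phi (ε : V → ℝ) : ℝ := ∑ v, (dg A v ^ 2 + EE A ε v ^ 2 + 2 * ε v * dg A v * EE A ε v)

/-- the multiaffine function -/
def FF (ε : V → ℝ) : ℝ := Phi A ε + ∑ v, dg A v * (1 - ε v ^ 2)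

theorem EE_update (ε : V → ℝ) (i : V) (t : ℝ) (v : V) :
    EE A (Function.update ε i t) v = EE A ε v + (t - ε i) * A v i := by
  unfold EE
  have h : ∀ u, A v u * Function.update ε i t u = A v u * ε u + (if u = i then (t - ε i) * A v i else 0) := by
    intro u
    by_cases hu : u = i
    · subst hu
      rw [Function.update_self, if_pos rfl]
      ring
    · rw [Function.update_of_ne hu, if_neg hu, add_zero]
  rw [sum_congr rfl fun u _ => h u, sum_add_distrib, sum_ite_eq' univ i, if_pos (mem_univ _)]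

theorem FF_update (h01 : ∀ v u, A v u ^ 2 = A v u) (hs : ∀ v u, A v u = A u v) (hd : ∀ v, A v v = 0)
    (ε : V → ℝ) (i : V) : ∃ b : ℝ, ∀ t : ℝ, FF A (Function.update ε i t) = FF A ε + (t - ε i) * b := by
  refine ⟨∑ v, (2 * A v i * EE A ε v + 2 * ε v * dg A v * A v i +
    (if v = i then 2 * dg A v * EE A ε v - 2 * dg A v * ε v else 0)), fun t => ?_⟩
  unfold FF Phi
  have h : ∀ v, (dg A v ^ 2 + EE A (Function.update ε i t) v ^ 2 +
      2 * Function.update ε i t v * dg A v * EE A (Function.update ε i t) v) +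
      dg A v * (1 - Function.update ε i t v ^ 2) =
      ((dg A v ^ 2 + EE A ε v ^ 2 + 2 * ε v * dg A v * EE A ε v) + dg A v * (1 - ε v ^ 2)) +
      (t - ε i) * (2 * A v i * EE A ε v + 2 * ε v * dg A v * A v i +
      (if v = i then 2 * dg A v * EE A ε v - 2 * dg A v * ε v else 0)) +
      (t - ε i) ^ 2 * (A v i - (if v = i then dg A i else 0)) := by
    intro v
    rw [EE_update]
    by_cases hv : v = i
    · subst hv
      rw [Function.update_self, if_pos rfl, if_pos rfl, hd]
      ring
    · rw [Function.update_of_ne hv, if_neg hv, if_neg hv]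
      have := h01 v i
      linear_combination (t - ε i) ^ 2 * this
  rw [← sum_add_distrib, ← sum_add_distrib, sum_congr rfl fun v _ => h v, sum_add_distrib, sum_add_distrib,
    ← mul_sum, ← mul_sum, sum_sub_distrib, sum_ite_eq' univ i, if_pos (mem_univ _)]
  have h2 : ∑ v, A v i = dg A i := by
    unfold dg
    exact sum_congr rfl fun v _ => hs v i
  rw [h2, sub_self, mul_zero, add_zero]

theorem round (h01 : ∀ v u, A v u ^ 2 = A v u) (hs : ∀ v u, A v u = A u v) (hd : ∀ v, A v v = 0)
    (ε : V → ℝ) (hε : ∀ v, |ε v| ≤ 1) (S : Finset V) :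
    ∃ σ : V → ℝ, (∀ v ∈ S, σ v = 1 ∨ σ v = -1) ∧ (∀ v, |σ v| ≤ 1) ∧ FF A σ ≤ FF A ε := by
  induction S using Finset.induction_on with
  | empty => exact ⟨ε, by simp, hε, le_rfl⟩
  | insert i S hi ih =>
    obtain ⟨σ, h1, h2, h3⟩ := ih
    obtain ⟨b, hb⟩ := FF_update A h01 hs hd σ i
    have hσ := abs_le.1 (h2 i)
    have aux : ∀ t : ℝ, (t = 1 ∨ t = -1) → (t - σ i) * b ≤ 0 →
        ∃ σ : V → ℝ, (∀ v ∈ insert i S, σ v = 1 ∨ σ v = -1) ∧ (∀ v, |σ v| ≤ 1) ∧ FF A σ ≤ FF A ε := by
      intro t ht hb0
      refine ⟨Function.update σ i t, fun v hv => ?_, fun v => ?_, ?_⟩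
      · by_cases hvi : v = i
        · subst hvi
          rw [Function.update_self]
          exact ht
        · rw [Function.update_of_ne hvi]
          exact h1 v ((mem_insert.1 hv).resolve_left hvi)
      · by_cases hvi : v = i
        · subst hvi
          rw [Function.update_self]
          rcases ht with ht | ht <;> rw [ht] <;> norm_num
        · rw [Function.update_of_ne hvi]
          exact h2 v
      · rw [hb t]
        linarith
    rcases le_total b 0 with h | h
    · exact aux 1 (Or.inl rfl) (mul_nonpos_of_nonneg_of_nonpos (by linarith) h)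
    · exact aux (-1) (Or.inr rfl) (mul_nonpos_of_nonpos_of_nonneg (by linarith) h)

theorem phi_le (h0 : ∀ v u, 0 ≤ A v u) (h01 : ∀ v u, A v u ^ 2 = A v u) (hs : ∀ v u, A v u = A u v)
    (s : ℝ) (hs0 : 0 < s) (hs2 : s ^ 2 = ∑ v, dg A v) :
    Phi A (fun v => hh (dg A v / s)) ≤ s ^ 3 := by
  set x : V → ℝ := fun v => dg A v / s with hx
  have hdg : ∀ v, 0 ≤ dg A v := fun v => sum_nonneg fun u _ => h0 v u
  have hx0 : ∀ v, 0 ≤ x v := fun v => div_nonneg (hdg v) hs0.le
  have hA1 : ∀ v u, A v u ≤ 1 := by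
    intro v u
    nlinarith [h01 v u, h0 v u, sq_nonneg (A v u - 1)]
  have hsumx : ∑ u, x u = s := by
    rw [hx, ← sum_div, ← hs2]
    field_simp
  -- the pointwise bound
  have hpt : ∀ v, dg A v ^ 2 + EE A (fun v => hh (x v)) v ^ 2 +
      2 * hh (x v) * dg A v * EE A (fun v => hh (x v)) v ≤
      s * ∑ u, A v u * psi (x v) (min (x u) 1) := by
    intro v
    set G : ℝ := (∑ u, A v u * (1 + hh (x u))) / s with hG
    set G' : ℝ := (∑ u, A v u * min (x u) 1) / s with hG'
    have hdx : dg A v = s * x v := by rw [hx]; field_simp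
    have hE : EE A (fun v => hh (x v)) v = s * (G - x v) := by
      rw [hG, hx]
      unfold EE
      have : ∑ u, A v u * (1 + hh (x u)) = dg A v + ∑ u, A v u * hh (x u) := by
        unfold dg
        rw [← sum_add_distrib]
        exact sum_congr rfl fun u _ => by ring
      rw [this]
      field_simp
      ring
    have hG0 : 0 ≤ G := by
      rw [hG]
      refine div_nonneg (sum_nonneg fun u _ => mul_nonneg (h0 v u) ?_) hs0.le
      exact (le_min (hx0 u) zero_le_one).trans (min_le_hh _ (hx0 u))
    have hGG : G' ≤ G := by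
      rw [hG, hG']
      refine div_le_div_of_nonneg_right (sum_le_sum fun u _ => ?_) hs0.le
      exact mul_le_mul_of_nonneg_left (min_le_hh _ (hx0 u)) (h0 v u)
    have hG1 : G ≤ 1 := by
      rw [hG, div_le_one hs0, ← hsumx]
      refine sum_le_sum fun u _ => ?_
      calc A v u * (1 + hh (x u)) ≤ A v u * x u := mul_le_mul_of_nonneg_left (hh_le _ (hx0 u)) (h0 v u)
        _ ≤ 1 * x u := mul_le_mul_of_nonneg_right (hA1 v u) (hx0 u)
        _ = x u := one_mul _
    have hG2 : G ≤ 2 * x v := by
      rw [hG, div_le_iff₀ hs0]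
      calc ∑ u, A v u * (1 + hh (x u)) ≤ ∑ u, A v u * 2 :=
            sum_le_sum fun u _ => mul_le_mul_of_nonneg_left (hh_le_one _ (hx0 u)) (h0 v u)
        _ = 2 * dg A v := by unfold dg; rw [← sum_mul]; ring
        _ = 2 * x v * s := by rw [hdx]; ring
    have hL : dg A v ^ 2 + EE A (fun v => hh (x v)) v ^ 2 +
        2 * hh (x v) * dg A v * EE A (fun v => hh (x v)) v =
        s ^ 2 * (x v ^ 2 + (G - x v) ^ 2 + 2 * hh (x v) * x v * (G - x v)) := by
      rw [hE, hdx]; ring
    rw [hL]
    have hmain : x v ^ 2 + (G - x v) ^ 2 + 2 * hh (x v) * x v * (G - x v) ≤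
        (∑ u, A v u * psi (x v) (min (x u) 1)) / s := by
      rcases lt_or_ge (x v) 1 with h | h
      · have e1 : (∑ u, A v u * psi (x v) (min (x u) 1)) / s =
            x v * ((∑ u, A v u * (2 - x v - min (x u) 1) ^ 2) / s) + x v ^ 2 * (x v * (2 - x v)) := by
          have e2 : ∀ u, A v u * psi (x v) (min (x u) 1) =
              x v * (A v u * (2 - x v - min (x u) 1) ^ 2) + A v u * (x v * (x v * (2 - x v))) := by
            intro u
            unfold psi
            rw [if_pos h]
            ring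
          rw [sum_congr rfl fun u _ => e2 u, sum_add_distrib, ← mul_sum, ← sum_mul]
          have e3 : ∑ u, A v u = s * x v := hdx
          rw [e3]
          field_simp
        rw [e1]
        refine low (x v) G G' _ (hx0 v) h hG1 hGG hG2 ?_ ?_
        · have e4 : x v * (2 - x v) - G' = (∑ u, A v u * (2 - x v - min (x u) 1)) / s := by
            rw [hG']
            have e5 : ∑ u, A v u * (2 - x v - min (x u) 1) =
                (s * x v) * (2 - x v) - ∑ u, A v u * min (x u) 1 := by
              rw [← hdx]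
              unfold dg
              rw [sum_mul, ← sum_sub_distrib]
              exact sum_congr rfl fun u _ => by ring
            rw [e5]
            field_simp
          rw [e4, div_pow]
          have e6 := Finset.sum_mul_sq_le_sq_mul_sq univ (fun u => A v u)
            (fun u => A v u * (2 - x v - min (x u) 1))
          have e7 : ∑ u, A v u * (A v u * (2 - x v - min (x u) 1)) = ∑ u, A v u * (2 - x v - min (x u) 1) :=
            sum_congr rfl fun u _ => by rw [← mul_assoc, ← sq, h01]
          have e8 : ∑ u, A v u ^ 2 = s * x v := by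
            rw [← hdx]
            exact sum_congr rfl fun u _ => h01 v u
          have e9 : ∑ u, (A v u * (2 - x v - min (x u) 1)) ^ 2 = ∑ u, A v u * (2 - x v - min (x u) 1) ^ 2 :=
            sum_congr rfl fun u _ => by rw [mul_pow, h01]
          rw [e7, e8, e9] at e6
          rw [div_le_iff₀ (by positivity)]
          calc _ ≤ _ := e6
            _ = _ := by field_simp
        · rw [le_div_iff₀ hs0]
          calc x v * (1 - x v) ^ 2 * s = ∑ u, A v u * (1 - x v) ^ 2 := by
                rw [← sum_mul]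
                have : ∑ u, A v u = s * x v := hdx
                rw [this]; ring
            _ ≤ _ := by
                refine sum_le_sum fun u _ => mul_le_mul_of_nonneg_left ?_ (h0 v u)
                have h5 : min (x u) 1 ≤ 1 := min_le_right _ _
                exact pow_le_pow_left₀ (by linarith) (by linarith) 2
      · have e1 : (∑ u, A v u * psi (x v) (min (x u) 1)) / s = 2 * x v - G' := by
          have e2 : ∀ u, A v u * psi (x v) (min (x u) 1) = A v u * 2 - A v u * min (x u) 1 := by
            intro u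
            unfold psi
            rw [if_neg (not_lt.2 h)]
            ring
          rw [sum_congr rfl fun u _ => e2 u, sum_sub_distrib, ← sum_mul, hG']
          have e3 : ∑ u, A v u = s * x v := hdx
          rw [e3]
          field_simp
        rw [e1]
        exact high (x v) G G' h hG0 hG1 hGG
    calc s ^ 2 * (x v ^ 2 + (G - x v) ^ 2 + 2 * hh (x v) * x v * (G - x v)) ≤
        s ^ 2 * ((∑ u, A v u * psi (x v) (min (x u) 1)) / s) := mul_le_mul_of_nonneg_left hmain (by positivity)
      _ = _ := by field_simp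
  unfold Phi
  calc _ ≤ ∑ v, s * ∑ u, A v u * psi (x v) (min (x u) 1) := sum_le_sum fun v _ => hpt v
    _ = s * ∑ v, ∑ u, A v u * psi (x v) (min (x u) 1) := by rw [mul_sum]
    _ ≤ s * s ^ 2 := by
        refine mul_le_mul_of_nonneg_left ?_ hs0.le
        have e1 : ∑ v, ∑ u, A v u * psi (x v) (min (x u) 1) =
            ∑ v, ∑ u, A v u * psi (x u) (min (x v) 1) := by
          rw [sum_comm]
          exact sum_congr rfl fun v _ => sum_congr rfl fun u _ => by rw [hs u v]
        have e2 : ∑ v, ∑ u, A v u * psi (x v) (min (x u) 1) + ∑ v, ∑ u, A v u * psi (x u) (min (x v) 1) ≤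
            2 * s ^ 2 := by
          rw [← sum_add_distrib, hs2, mul_sum]
          refine sum_le_sum fun v _ => ?_
          rw [← sum_add_distrib]
          unfold dg
          rw [mul_sum]
          refine sum_le_sum fun u _ => ?_
          rw [← mul_add, mul_comm (2 : ℝ)]
          exact mul_le_mul_of_nonneg_left (pair _ _ (hx0 v) (hx0 u)) (h0 v u)
        linarith
    _ = s ^ 3 := by ring

end Pool.Agent.P8H66.SQ
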