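import Pool.Agent.P8H66.SQ.Core
import Pool.Agent.Helper650_SD.Lower

/-!
# The upper bound for `f_μ(m)` (helper66)
-/

set_option autoImplicit false

open Finset

namespace Pool.Agent.P8H66.SQ

open Helper650_SD

open Classical in
/-- the adjacency matrix -/
noncomputable def adj {n : ℕ} (G : SimpleGraph (Fin n)) (v u : Fin n) : ℝ := if G.Adj v u then 1 else 0

open Classical in
theorem dg_adj {n : ℕ} (G : SimpleGraph (Fin n)) (v : Fin n) : dg (adj G) v = (G.degree v : ℝ) := by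
  unfold dg adj
  rw [← SimpleGraph.card_neighborFinset_eq_degree, sum_boole]
  congr 2
  ext u
  simp

open Classical in
theorem cost_eq {n : ℕ} (G : SimpleGraph (Fin n)) (σ : Fin n → ℝ) (hσ : ∀ v, σ v = 1 ∨ σ v = -1) :
    4 * ((muOn G (univ.filter fun v => σ v = 1) : ℝ) + (muOn G (univ.filter fun v => σ v = 1)ᶜ : ℝ)) =
      FF (adj G) σ := by
  set S : Finset (Fin n) := univ.filter fun v => σ v = 1 with hS
  have hmS : ∀ v, v ∈ S ↔ σ v = 1 := fun v => by rw [hS, mem_filter]; simp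
  have hmC : ∀ v, v ∈ Sᶜ ↔ σ v = -1 := by
    intro v
    rw [mem_compl, hmS]
    rcases hσ v with h | h
    · rw [h]; norm_num
    · rw [h]; norm_num
  have hin : ∀ v, v ∈ S → (Nat.card {w : Fin n // w ∈ S ∧ G.Adj v w} : ℝ) =
      (dg (adj G) v + σ v * EE (adj G) σ v) / 2 := by
    intro v hv
    rw [inner_eq, (hmS v).1 hv, one_mul, card_filter]
    push_cast
    unfold dg EE
    rw [← sum_add_distrib, sum_div]
    have h1 : ∀ w, (adj G v w + adj G v w * σ w) / 2 = if w ∈ S then adj G v w else 0 := by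
      intro w
      by_cases hw : w ∈ S
      · rw [if_pos hw, (hmS w).1 hw]; ring
      · rw [if_neg hw, (hmC w).1 (mem_compl.2 hw)]; ring
    rw [sum_congr rfl fun w _ => h1 w, sum_ite_mem, univ_inter]
    exact sum_congr rfl fun w _ => rfl
  have hout : ∀ v, v ∈ Sᶜ → (Nat.card {w : Fin n // w ∈ Sᶜ ∧ G.Adj v w} : ℝ) =
      (dg (adj G) v + σ v * EE (adj G) σ v) / 2 := by
    intro v hv
    rw [inner_eq, (hmC v).1 hv, card_filter]
    push_cast
    unfold dg EE
    rw [neg_one_mul, ← sub_eq_add_neg, ← sum_sub_distrib, sum_div]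
    have h1 : ∀ w, (adj G v w - adj G v w * σ w) / 2 = if w ∈ Sᶜ then adj G v w else 0 := by
      intro w
      by_cases hw : w ∈ Sᶜ
      · rw [if_pos hw, (hmC w).1 hw]; ring
      · rw [if_neg hw, (hmS w).1 (by rwa [mem_compl, not_not] at hw)]; ring
    rw [sum_congr rfl fun w _ => h1 w, sum_ite_mem, univ_inter]
    exact sum_congr rfl fun w _ => rfl
  have h1 : (muOn G S : ℝ) = ∑ v ∈ S, ((dg (adj G) v + σ v * EE (adj G) σ v) / 2) ^ 2 := by
    unfold muOn
    push_cast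
    exact sum_congr rfl fun v hv => by rw [hin v hv]
  have h2 : (muOn G Sᶜ : ℝ) = ∑ v ∈ Sᶜ, ((dg (adj G) v + σ v * EE (adj G) σ v) / 2) ^ 2 := by
    unfold muOn
    push_cast
    exact sum_congr rfl fun v hv => by rw [hout v hv]
  rw [h1, h2, sum_add_sum_compl]
  unfold FF Phi
  rw [← sum_add_distrib, mul_sum]
  refine sum_congr rfl fun v _ => ?_
  have h3 : σ v ^ 2 = 1 := by
    rcases hσ v with h | h <;> rw [h] <;> norm_num
  linear_combination (EE (adj G) σ v ^ 2 + dg (adj G) v) * h3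

theorem upper4 {n : ℕ} (G : SimpleGraph (Fin n)) (m : ℕ) (hm : Nat.card G.edgeSet = m) :
    (fG G : ℝ) ≤ (√(2 * m)) ^ 3 / 4 + m / 2 := by
  classical
  rcases Nat.eq_zero_or_pos m with h0 | hpos
  · have := upper G m hm
    rw [h0] at this ⊢
    simpa using this
  set s : ℝ := √(2 * m) with hs
  have hmr : (0 : ℝ) < m := by exact_mod_cast hpos
  have hs0 : 0 < s := Real.sqrt_pos.2 (by positivity)
  have hs2 : s ^ 2 = 2 * m := Real.sq_sqrt (by positivity)
  have hsum : s ^ 2 = ∑ v, dg (adj G) v := by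
    rw [hs2, sum_congr rfl fun v _ => dg_adj G v]
    have := sum_deg G
    rw [hm] at this
    exact_mod_cast this.symm
  have a0 : ∀ v u, 0 ≤ adj G v u := fun v u => by unfold adj; split_ifs <;> norm_num
  have a1 : ∀ v u, adj G v u ^ 2 = adj G v u := fun v u => by unfold adj; split_ifs <;> norm_num
  have a2 : ∀ v u, adj G v u = adj G u v := fun v u => by unfold adj; simp only [G.adj_comm]
  have a3 : ∀ v, adj G v v = 0 := fun v => by unfold adj; simp
  have hd0 : ∀ v, 0 ≤ dg (adj G) v / s := fun v =>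
    div_nonneg (sum_nonneg fun u _ => a0 v u) hs0.le
  have hphi := phi_le (adj G) a0 a1 a2 s hs0 hsum
  obtain ⟨σ, h1, -, h3⟩ := round (adj G) a1 a2 a3 (fun v => hh (dg (adj G) v / s))
    (fun v => hh_abs _ (hd0 v)) univ
  have h4 := cost_eq G σ fun v => h1 v (mem_univ _)
  have h5 : FF (adj G) (fun v => hh (dg (adj G) v / s)) ≤ s ^ 3 + 2 * m := by
    unfold FF
    have h6 : ∑ v, dg (adj G) v * (1 - hh (dg (adj G) v / s) ^ 2) ≤ ∑ v, dg (adj G) v := by
      refine sum_le_sum fun v _ => ?_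
      have h7 : 0 ≤ dg (adj G) v := sum_nonneg fun u _ => a0 v u
      nlinarith [sq_nonneg (hh (dg (adj G) v / s)), mul_nonneg h7 (sq_nonneg (hh (dg (adj G) v / s)))]
    rw [← hsum, hs2] at h6
    linarith
  have hle : fG G ≤ muOn G (univ.filter fun v => σ v = 1) + muOn G (univ.filter fun v => σ v = 1)ᶜ :=
    Nat.sInf_le ⟨_, rfl⟩
  have h8 : (fG G : ℝ) ≤ (muOn G (univ.filter fun v => σ v = 1) : ℝ) +
      (muOn G (univ.filter fun v => σ v = 1)ᶜ : ℝ) := by exact_mod_cast hle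
  linarith

theorem nonempty_set (m : ℕ) : {k | ∃ (n : ℕ) (G : SimpleGraph (Fin n)), Nat.card G.edgeSet = m ∧ k = fG G}.Nonempty := by
  rcases Nat.eq_zero_or_pos m with h0 | hpos
  · subst h0
    refine ⟨_, 0, ⊥, ?_, rfl⟩
    simp
  · obtain ⟨n, -, hn, hn'⟩ := exists_clique_size m hpos
    obtain ⟨G, hGm, -⟩ := exists_graph m n hn hn'.le
    exact ⟨_, n + 1, G, hGm, rfl⟩

theorem greatest (m : ℕ) :
    IsGreatest {k | ∃ (n : ℕ) (G : SimpleGraph (Fin n)), Nat.card G.edgeSet = m ∧ k = fG G} (fmu m) :=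
  ⟨Nat.sSup_mem (nonempty_set m) (bdd m), fun _ hk => le_csSup (bdd m) hk⟩

theorem fmu_le4 (m : ℕ) : (fmu m : ℝ) ≤ (√(2 * m)) ^ 3 / 4 + m / 2 := by
  obtain ⟨n, G, hm, hk⟩ := (greatest m).1
  rw [hk]
  exact upper4 G m hm

theorem asymp (m : ℕ) : |(fmu m : ℝ) - (√(2 * m)) ^ 3 / 4| ≤ (9 / 2 : ℝ) * m := by
  rw [abs_le]
  constructor
  · rcases Nat.eq_zero_or_pos m with h0 | hpos
    · subst h0
      simp
    · have h1 := le_fmu m hpos
      set s : ℝ := √(2 * m) with hs
      have hmr : (1 : ℝ) ≤ m := by exact_mod_cast hpos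
      have hs2 : s ^ 2 = 2 * m := Real.sq_sqrt (by positivity)
      have hs1 : 1 ≤ s := by
        rw [hs, Real.one_le_sqrt]
        linarith
      have e : (s - 3) ^ 3 = s ^ 3 - 9 * s ^ 2 + 27 * s - 27 := by ring
      rw [e, hs2] at h1
      linarith
  · have h1 := fmu_le4 m
    have hmr : (0 : ℝ) ≤ m := by positivity
    linarith

end Pool.Agent.P8H66.SQ
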